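import Pool.Agent.W387.MS2

/-!
# Segments at all scales, for a general exponent

The results of `Pool.Agent.W387.MS2` from the hypothesis `c_n ≤ μ^n exp (K (log n)^e)`.
-/

set_option autoImplicit false

namespace Pool.Agent.TH508.MS

open Finset
open Pool.Agent.H122R3.MS (Pt IsSAW seg card_le card_local cS cS_pos cS_eq mu_pow_le hfin prob prob_eq
  prob_nonneg prob_mono prob_le_one prob_union two_le_log one_le_loglog dist2_sub ofNat_val
  piece convex_bound norm_pt_sub X sn pt IsBridge cB cB_eq probB probB_eq probB_nonneg card_ge)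
open Pool.Agent.H979R2.P2 (dist2 diam le_diam diam_exists)
open Pool.Agent.W387.MS2 (AllSeg scale)

/-- `c_n ≤ μ^n exp (K (log n)^e)` -/
def Up (e : ℕ) : Prop := ∃ K : ℝ, 0 ≤ K ∧ ∀ N : ℕ, 2 ≤ N →
    H981.cr' N ≤ H981.mu ^ N * Real.exp (K * Real.log N ^ e)

theorem cS_upper {e : ℕ} (up : Up e) : ∃ K : ℝ, 0 < K ∧ ∀ n m : ℕ, 2 ≤ n → m ≤ n →
    (cS m : ℝ) ≤ H981.mu ^ m * Real.exp (K * Real.log n ^ e) := by
  obtain ⟨K₁, hK₁, h1⟩ := up
  have hl2 : 0 < Real.log 2 := Real.log_pos (by norm_num)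
  set A : ℝ := |Real.log (cS 0 / H981.mu ^ 0)| + |Real.log (cS 1 / H981.mu ^ 1)| with hA
  have hA0 : 0 ≤ A := by positivity
  refine ⟨K₁ + A / Real.log 2 ^ e + 1, by positivity, fun n m hn hm => ?_⟩
  have hln : Real.log 2 ≤ Real.log n :=
    Real.log_le_log (by norm_num) (by exact_mod_cast hn)
  have hmu := H981.mu_pos
  have h9 : Real.log 2 ^ e ≤ Real.log n ^ e := pow_le_pow_left₀ hl2.le hln e
  have h90 : 0 < Real.log n ^ e := (by positivity : 0 < Real.log 2 ^ e).trans_le h9
  have hAle : A ≤ A / Real.log 2 ^ e * Real.log n ^ e := by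
    rw [div_mul_eq_mul_div, le_div_iff₀ (by positivity)]
    exact mul_le_mul_of_nonneg_left h9 hA0
  have small : ∀ m : ℕ, |Real.log (cS m / H981.mu ^ m)| ≤ A →
      (cS m : ℝ) ≤ H981.mu ^ m *
        Real.exp ((K₁ + A / Real.log 2 ^ e + 1) * Real.log n ^ e) := by
    intro m h
    have hq : 0 < (cS m : ℝ) / H981.mu ^ m := div_pos (cS_pos m) (pow_pos hmu m)
    have h3 : (cS m : ℝ) / H981.mu ^ m ≤
        Real.exp ((K₁ + A / Real.log 2 ^ e + 1) * Real.log n ^ e) := by
      rw [← Real.exp_log hq]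
      refine Real.exp_le_exp.mpr ?_
      have h4 := (le_abs_self (Real.log (cS m / H981.mu ^ m))).trans (h.trans hAle)
      nlinarith
    rw [div_le_iff₀ (pow_pos hmu m)] at h3
    linarith
  have hm' : m = 0 ∨ m = 1 ∨ 2 ≤ m := by omega
  rcases hm' with rfl | rfl | hm2
  · exact small 0 (by rw [hA]; linarith [abs_nonneg (Real.log (cS 1 / H981.mu ^ 1))])
  · exact small 1 (by rw [hA]; linarith [abs_nonneg (Real.log (cS 0 / H981.mu ^ 0))])
  · have h3 := h1 m hm2
    rw [H981.cr'_eq, ← cS_eq] at h3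
    refine h3.trans (mul_le_mul_of_nonneg_left (Real.exp_le_exp.mpr ?_) (pow_pos hmu m).le)
    have h4 : Real.log m ^ e ≤ Real.log n ^ e := by
      refine pow_le_pow_left₀ (Real.log_natCast_nonneg m) (Real.log_le_log ?_ ?_) e
      · have : (2 : ℝ) ≤ m := by exact_mod_cast hm2
        linarith
      · exact_mod_cast hm
    have h5 : 0 ≤ A / Real.log 2 ^ e := by positivity
    have h6 : K₁ * Real.log m ^ e ≤ K₁ * Real.log n ^ e := mul_le_mul_of_nonneg_left h4 hK₁
    nlinarith

/-- the law of the consecutive segments is dominated by independent walks -/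
theorem dominate {e : ℕ} (up : Up e) : ∃ K : ℝ, 0 < K ∧ ∀ (n k : ℕ) (a : ℕ → ℕ), 2 ≤ n → Monotone a → a 0 = 0 →
    a k = n → ∀ E : (j : ℕ) → (Fin (a (j + 1) - a j + 1) → Pt) → Prop,
    prob n (fun w => ∀ j < k, E j (seg w (a j) (a (j + 1) - a j))) ≤
      Real.exp (K * k * Real.log n ^ e) * ∏ j ∈ range k, prob (a (j + 1) - a j) (E j) := by
  obtain ⟨K, hK, hup⟩ := cS_upper up
  refine ⟨K, hK, fun n k a hn ha h0 hk E => ?_⟩
  have h1 := card_le hfin ha h0 hk E
  have hc := cS_pos n
  have hmu := H981.mu_pos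
  have h2 : (Nat.card {w : Fin (n + 1) → Pt // IsSAW n w ∧
      ∀ j < k, E j (seg w (a j) (a (j + 1) - a j))} : ℝ) ≤
      ∏ j ∈ range k, (prob (a (j + 1) - a j) (E j) * cS (a (j + 1) - a j)) := by
    simp only [← prob_eq]
    exact_mod_cast h1
  have hle : ∀ j ∈ range k, a (j + 1) - a j ≤ n := by
    intro j hj
    have h3 : a (j + 1) ≤ a k := ha (by have := Finset.mem_range.mp hj; omega)
    omega
  have h3 : ∏ j ∈ range k, (cS (a (j + 1) - a j) : ℝ) ≤
      H981.mu ^ n * Real.exp (K * k * Real.log n ^ e) := by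
    calc ∏ j ∈ range k, (cS (a (j + 1) - a j) : ℝ)
        ≤ ∏ j ∈ range k, (H981.mu ^ (a (j + 1) - a j) * Real.exp (K * Real.log n ^ e)) :=
          Finset.prod_le_prod (fun j _ => (cS_pos _).le) (fun j hj => hup n _ hn (hle j hj))
      _ = H981.mu ^ n * Real.exp (K * k * Real.log n ^ e) := by
          rw [Finset.prod_mul_distrib, Finset.prod_pow_eq_pow_sum, Finset.sum_range_tsub ha,
            h0, hk, Finset.prod_const, Finset.card_range, ← Real.exp_nat_mul]
          congr 2
          ring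
  rw [prob_eq, Finset.prod_mul_distrib] at h2
  have hP : 0 ≤ ∏ j ∈ range k, prob (a (j + 1) - a j) (E j) :=
    Finset.prod_nonneg (fun j _ => prob_nonneg _ _)
  have h4 : prob n (fun w => ∀ j < k, E j (seg w (a j) (a (j + 1) - a j))) * cS n ≤
      (Real.exp (K * k * Real.log n ^ e) * ∏ j ∈ range k, prob (a (j + 1) - a j) (E j)) *
        cS n := by
    refine h2.trans ((mul_le_mul_of_nonneg_left h3 hP).trans ?_)
    have h5 := mu_pow_le n
    have h6 : 0 ≤ (∏ j ∈ range k, prob (a (j + 1) - a j) (E j)) *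
        Real.exp (K * k * Real.log n ^ e) := mul_nonneg hP (Real.exp_pos _).le
    nlinarith [mul_le_mul_of_nonneg_left h5 h6]
  exact le_of_mul_le_mul_right h4 hc

/-- one segment -/
theorem local_bound {e : ℕ} (up : Up e) : ∃ K : ℝ, 0 < K ∧ ∀ (n i m : ℕ), 2 ≤ n → i + m ≤ n →
    ∀ E : (Fin (m + 1) → Pt) → Prop,
    prob n (fun w => E (seg w i m)) ≤ Real.exp (K * Real.log n ^ e) * prob m E := by
  obtain ⟨K, hK, hup⟩ := cS_upper up
  refine ⟨3 * K, by positivity, fun n i m hn him E => ?_⟩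
  have h1 := card_local hfin him E
  have hc := cS_pos n
  have hmu := H981.mu_pos
  have h2 : prob n (fun w => E (seg w i m)) * cS n ≤
      cS i * (prob m E * cS m) * cS (n - (i + m)) := by
    rw [← prob_eq, ← prob_eq]
    exact_mod_cast h1
  have e1 := hup n i hn (by omega)
  have e2 := hup n m hn (by omega)
  have e3 := hup n (n - (i + m)) hn (by omega)
  have hp := prob_nonneg m E
  have h3 : (cS i : ℝ) * cS m * cS (n - (i + m)) ≤
      H981.mu ^ n * Real.exp (3 * K * Real.log n ^ e) := by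
    calc (cS i : ℝ) * cS m * cS (n - (i + m))
        ≤ (H981.mu ^ i * Real.exp (K * Real.log n ^ e)) *
          (H981.mu ^ m * Real.exp (K * Real.log n ^ e)) *
          (H981.mu ^ (n - (i + m)) * Real.exp (K * Real.log n ^ e)) := by
          have := (cS_pos i).le
          have := (cS_pos m).le
          have := (cS_pos (n - (i + m))).le
          gcongr
      _ = H981.mu ^ (i + m + (n - (i + m))) * (Real.exp (K * Real.log n ^ e)) ^ 3 := by
          rw [pow_add, pow_add]
          ring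
      _ = H981.mu ^ n * Real.exp (3 * K * Real.log n ^ e) := by
          rw [show i + m + (n - (i + m)) = n by omega, ← Real.exp_nat_mul]
          congr 2
          push_cast
          ring
  have h4 : prob n (fun w => E (seg w i m)) * cS n ≤
      (Real.exp (3 * K * Real.log n ^ e) * prob m E) * cS n := by
    refine h2.trans ?_
    have h5 := mu_pow_le n
    calc (cS i : ℝ) * (prob m E * cS m) * cS (n - (i + m))
        = prob m E * (cS i * cS m * cS (n - (i + m))) := by ring
      _ ≤ prob m E * (H981.mu ^ n * Real.exp (3 * K * Real.log n ^ e)) :=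
          mul_le_mul_of_nonneg_left h3 hp
      _ ≤ prob m E * (cS n * Real.exp (3 * K * Real.log n ^ e)) := by gcongr
      _ = _ := by ring
  exact le_of_mul_le_mul_right h4 hc

theorem all_seg {e : ℕ} (he : 1 ≤ e) (up : Up e) : ∃ c C : ℝ, 0 < c ∧ c ≤ 1 ∧ 1 ≤ C ∧ ∀ n : ℕ, 16 ≤ n → ∀ T : ℝ,
    Real.log n ^ e ≤ T → prob n (fun w => ¬ AllSeg c C T n w) ≤ C * Real.exp (-T) := by
  obtain ⟨K, hK, hloc⟩ := local_bound up
  obtain ⟨c, C, hc0, hc1, hC1, hsc⟩ := scale (K + 5) (by linarith)
  refine ⟨c, C, hc0, hc1, hC1, fun n hn T hT => ?_⟩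
  set L : ℝ := Real.log n with hL
  have hL2 : 2 ≤ L := two_le_log hn
  have hLT : L ≤ T := (le_self_pow₀ (by linarith) (by omega)).trans hT
  have hT0 : 0 < T := by linarith
  set S : Finset (ℕ × ℕ) := (range (n + 1) ×ˢ range (n + 1)).filter
    (fun x => x.1 + x.2 ≤ n ∧ 16 * T ≤ x.2) with hS
  have h1 : prob n (fun w => ¬ AllSeg c C T n w) ≤
      prob n (fun w => ∃ x ∈ S, Pool.Agent.W387.MS2.rad c C T x.2 ≤ diam (seg w x.1 x.2)) := by
    refine prob_mono (fun w _ hw => ?_)
    unfold AllSeg at hw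
    push Not at hw
    obtain ⟨i, m, him, hm, hd⟩ := hw
    refine ⟨(i, m), ?_, hd⟩
    rw [hS, Finset.mem_filter, Finset.mem_product, Finset.mem_range, Finset.mem_range]
    exact ⟨⟨by simp only; omega, by simp only; omega⟩, him, hm⟩
  have h2 := prob_union (n := n) S (fun x w => Pool.Agent.W387.MS2.rad c C T x.2 ≤ diam (seg w x.1 x.2))
  have h3 : ∀ x ∈ S, prob n (fun w => Pool.Agent.W387.MS2.rad c C T x.2 ≤ diam (seg w x.1 x.2)) ≤
      Real.exp (K * T) * (C * Real.exp (-((K + 5) * T))) := by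
    intro x hx
    rw [hS, Finset.mem_filter] at hx
    obtain ⟨-, hx1, hx2⟩ := hx
    have hx0 : 1 ≤ x.2 := by
      have : (0 : ℝ) < x.2 := by linarith
      exact_mod_cast this
    refine (hloc n x.1 x.2 (by omega) hx1 (fun w => Pool.Agent.W387.MS2.rad c C T x.2 ≤ diam w)).trans ?_
    refine mul_le_mul (Real.exp_le_exp.mpr ?_) (hsc T hT0 x.2 hx0 hx2) (prob_nonneg _ _)
      (Real.exp_pos _).le
    exact mul_le_mul_of_nonneg_left hT hK.le
  have h4 : (S.card : ℝ) ≤ Real.exp (4 * L) := by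
    have h5 : S.card ≤ (n + 1) * (n + 1) := by
      refine (Finset.card_filter_le _ _).trans ?_
      rw [Finset.card_product, Finset.card_range]
    have h6 : ((n : ℝ) + 1) ≤ Real.exp (2 * L) := by
      have hnpos : (0 : ℝ) < n := by
        have : 0 < n := by omega
        exact_mod_cast this
      have hn16 : (16 : ℝ) ≤ n := by exact_mod_cast hn
      have : Real.exp (2 * L) = (n : ℝ) ^ 2 := by
        rw [hL, ← Real.log_rpow hnpos, Real.exp_log (by positivity)]
        norm_num
      rw [this]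
      nlinarith
    have h7 : (S.card : ℝ) ≤ ((n : ℝ) + 1) * ((n : ℝ) + 1) := by exact_mod_cast h5
    refine h7.trans ?_
    calc ((n : ℝ) + 1) * ((n : ℝ) + 1) ≤ Real.exp (2 * L) * Real.exp (2 * L) := by
          gcongr
      _ = Real.exp (4 * L) := by rw [← Real.exp_add]; congr 1; ring
  calc prob n (fun w => ¬ AllSeg c C T n w)
      ≤ ∑ x ∈ S, prob n (fun w => Pool.Agent.W387.MS2.rad c C T x.2 ≤ diam (seg w x.1 x.2)) := h1.trans h2
    _ ≤ ∑ x ∈ S, Real.exp (K * T) * (C * Real.exp (-((K + 5) * T))) :=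
        Finset.sum_le_sum h3
    _ = S.card * (Real.exp (K * T) * (C * Real.exp (-((K + 5) * T)))) := by
        rw [Finset.sum_const, nsmul_eq_mul]
    _ ≤ Real.exp (4 * L) * (Real.exp (K * T) * (C * Real.exp (-((K + 5) * T)))) := by
        gcongr
    _ = C * Real.exp (4 * L + K * T - (K + 5) * T) := by
        rw [sub_eq_add_neg, Real.exp_add, Real.exp_add]
        ring
    _ ≤ C * Real.exp (-T) := by
        refine mul_le_mul_of_nonneg_left (Real.exp_le_exp.mpr ?_) (by linarith)
        nlinarith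

end Pool.Agent.TH508.MS
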